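import Mathlib

/-!
# MP_45cf3b_lc: a `κ`-complete filter which strongly fails the Galvin property, under GCH
-/

set_option autoImplicit false

namespace Pool.Agent.Results.MP_45cf3b_lc.NullIntersections

open Cardinal Set

universe u

/-- The generalized continuum hypothesis. -/
def GCH : Prop := ∀ μ : Cardinal.{u}, ℵ₀ ≤ μ → 2 ^ μ = Order.succ μ

/-- The filter `F` over the cardinal `κ` is `κ`-complete: the intersection of fewer than `κ`
members of `F` is a member of `F`. -/
def Complete (κ : Cardinal.{u}) (F : Filter κ.ord.ToType) : Prop :=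
  ∀ S : Set (Set κ.ord.ToType), #S < κ → (∀ s ∈ S, s ∈ F) → ⋂₀ S ∈ F

/-- The filter `F` over the cardinal `κ` has the Galvin property: for every sequence of `κ⁺`
members of `F` there is a set of `κ` many indices with intersection in `F`. -/
def Galvin (κ : Cardinal.{u}) (F : Filter κ.ord.ToType) : Prop :=
  ∀ A : (Order.succ κ).ord.ToType → Set κ.ord.ToType, (∀ i, A i ∈ F) →
    ∃ I : Set (Order.succ κ).ord.ToType, #I = κ ∧ ⋂ i ∈ I, A i ∈ F

/-- There are `κ` pairwise disjoint `G`-positive sets (sets whose complement is not in `G`). -/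
def ManyPositive (κ : Cardinal.{u}) (G : Filter κ.ord.ToType) : Prop :=
  ∃ P : κ.ord.ToType → Set κ.ord.ToType, (∀ a, (P a)ᶜ ∉ G) ∧
    ∀ a b, a ≠ b → Disjoint (P a) (P b)

/-- There is a proper `κ`-complete filter `F` over `κ` extending `G` and without the Galvin
property, and moreover there are `2 ^ κ` members of `F` such that any `κ` of them have a null
intersection: the complement of the intersection is a member of `F`. -/
def StrongFailure (κ : Cardinal.{u}) (G : Filter κ.ord.ToType) : Prop :=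
  ∃ F : Filter κ.ord.ToType, F ≤ G ∧ F.NeBot ∧ Complete κ F ∧ ¬ Galvin κ F ∧
    ∃ A : Set κ.ord.ToType → Set κ.ord.ToType, (∀ X, A X ∈ F) ∧
      ∀ I : Set (Set κ.ord.ToType), κ ≤ #I → (⋂ X ∈ I, A X)ᶜ ∈ F

section
variable {κ : Cardinal.{u}}

theorem mk_K : #κ.ord.ToType = κ := Cardinal.mk_ord_toType κ

theorem mk_Iio_lt (a : κ.ord.ToType) : #(Iio a) < κ := by
  have h : #(Iio a) < #κ.ord.ToType := Cardinal.mk_Iio_lt a (by simp)
  rwa [mk_K] at h

/-- initial segments have all sizes -/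
theorem exists_Iio {c : Cardinal.{u}} (hc : c < κ) : ∃ a : κ.ord.ToType, #(Iio a) = c := by
  have h1 : c.ord < κ.ord := Cardinal.ord_lt_ord.2 hc
  have h2 : c.ord < Ordinal.type (α := κ.ord.ToType) (· < ·) := by
    rwa [Ordinal.type_toType]
  refine ⟨Ordinal.enum (α := κ.ord.ToType) (· < ·) ⟨c.ord, h2⟩, ?_⟩
  have h3 := Ordinal.card_typein (r := (· < · : κ.ord.ToType → κ.ord.ToType → Prop))
    (Ordinal.enum (α := κ.ord.ToType) (· < ·) ⟨c.ord, h2⟩)
  rw [Ordinal.typein_enum, Cardinal.card_ord] at h3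
  exact h3.symm

/-- the index set -/
abbrev D (κ : Cardinal.{u}) : Type u :=
  Σ a : κ.ord.ToType, (Iio a → κ.ord.ToType) × (Iio a → Set (Iio a))

theorem mk_D_le (hκ : ℵ₀ ≤ κ) (h : κ ^< κ = κ) : #(D κ) ≤ κ := by
  have hp : ∀ c : Cardinal.{u}, c < κ → κ ^ c ≤ κ := fun c hc => (le_powerlt κ hc).trans h.le
  rw [Cardinal.mk_sigma]
  refine (Cardinal.sum_le_sum _ (fun _ => κ) fun a => ?_).trans ?_
  · rw [Cardinal.mk_prod, lift_id, lift_id, ← Cardinal.power_def, ← Cardinal.power_def, mk_K,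
      Cardinal.mk_set, ← Cardinal.power_mul]
    have h1 : #(Iio a) * #(Iio a) < κ := Cardinal.mul_lt_of_lt hκ (mk_Iio_lt a) (mk_Iio_lt a)
    refine (mul_le_mul' (hp _ (mk_Iio_lt a)) ((?_ : _ ≤ κ ^ (#(Iio a) * #(Iio a))).trans
      (hp _ h1))).trans (Cardinal.mul_eq_self hκ).le
    exact Cardinal.power_le_power_right ((Cardinal.natCast_lt_aleph0 (n := 2)).le.trans hκ)
  · rw [Cardinal.sum_const', mk_K]
    exact (Cardinal.mul_eq_self hκ).le

/-- the independent family -/
def Bd (κ : Cardinal.{u}) (X : Set κ.ord.ToType) : Set (D κ) :=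
  {d | ∃ i, d.2.2 i = d.2.1 ⁻¹' X}

theorem independent (hκ : ℵ₀ ≤ κ) {ι ι' : Type u} (hι : #ι < κ) (hι' : #ι' < κ)
    (X : ι → Set κ.ord.ToType) (Y : ι' → Set κ.ord.ToType) (hXY : ∀ i j, X i ≠ Y j) :
    ∃ d : D κ, (∀ i, d ∈ Bd κ (X i)) ∧ ∀ j, d ∉ Bd κ (Y j) := by
  classical
  -- make the first family nonempty
  obtain ⟨Z, hZ⟩ : ∃ Z : Set κ.ord.ToType, ∀ j, Z ≠ Y j := by
    by_contra hcon
    push Not at hcon
    choose f hf using hcon
    have hinj : Function.Injective f := fun a b hab => by rw [hf a, hf b, hab]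
    have h1 := Cardinal.mk_le_of_injective hinj
    rw [Cardinal.mk_set, mk_K] at h1
    exact absurd ((Cardinal.cantor κ).trans_le h1) (not_lt.2 hι'.le)
  let X' : Option ι → Set κ.ord.ToType := fun o => o.elim Z X
  have hX' : ∀ o j, X' o ≠ Y j := by
    rintro (_ | i) j
    · exact hZ j
    · exact hXY i j
  have hz : ∀ p : Option ι × ι', ∃ z, ¬ (z ∈ X' p.1 ↔ z ∈ Y p.2) := by
    intro p
    by_contra hcon
    push Not at hcon
    exact hX' p.1 p.2 (Set.ext hcon)
  choose z hz using hz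
  have hO : #(Option ι) < κ := by
    rw [Cardinal.mk_option]
    exact Cardinal.add_lt_of_lt hκ hι ((Cardinal.one_lt_aleph0).trans_le hκ)
  obtain ⟨a, ha⟩ := exists_Iio (κ := κ) (c := #(Option ι × ι') + #(Option ι)) (by
    refine Cardinal.add_lt_of_lt hκ ?_ hO
    rw [Cardinal.mk_prod, lift_id, lift_id]
    exact Cardinal.mul_lt_of_lt hκ hO hι')
  have e : Nonempty ((Option ι × ι') ⊕ Option ι ≃ Iio a) := by
    rw [← Cardinal.eq, ha, Cardinal.mk_sum, lift_id, lift_id]
  obtain ⟨e⟩ := e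
  let f : Iio a → κ.ord.ToType := fun i => Sum.elim z (fun _ => a) (e.symm i)
  let g : Iio a → Set (Iio a) := fun i =>
    Sum.elim (fun _ => f ⁻¹' X' none) (fun o => f ⁻¹' X' o) (e.symm i)
  have hg : ∀ i, ∃ o, g i = f ⁻¹' X' o := by
    intro i
    rcases h : e.symm i with p | o
    · exact ⟨none, by simp only [g, h, Sum.elim_inl]⟩
    · exact ⟨o, by simp only [g, h, Sum.elim_inr]⟩
  refine ⟨⟨a, f, g⟩, fun i => ⟨e (Sum.inr (some i)), ?_⟩, ?_⟩
  · simp only [g, Equiv.symm_apply_apply, Sum.elim_inr]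
    rfl
  · rintro j ⟨i, hi⟩
    obtain ⟨o, ho⟩ := hg i
    have hi' : f ⁻¹' X' o = f ⁻¹' Y j := ho.symm.trans hi
    have h1 : f (e (Sum.inl (o, j))) = z (o, j) := by
      simp only [f, Equiv.symm_apply_apply, Sum.elim_inl]
    have h2 : e (Sum.inl (o, j)) ∈ f ⁻¹' X' o ↔ e (Sum.inl (o, j)) ∈ f ⁻¹' Y j := by rw [hi']
    rw [mem_preimage, mem_preimage, h1] at h2
    exact hz (o, j) h2

theorem strongFailure (hκ : κ.IsRegular) (h : κ ^< κ = κ) (G : Filter κ.ord.ToType)
    (hG : Complete κ G) (hP : ManyPositive κ G) : StrongFailure κ G := by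
  classical
  have hω := hκ.aleph0_le
  obtain ⟨P, hP1, hP2⟩ := hP
  obtain ⟨e, he⟩ : ∃ e : D κ → κ.ord.ToType, Function.Injective e := by
    have h1 : #(D κ) ≤ #κ.ord.ToType := by
      rw [mk_K]
      exact mk_D_le hω h
    obtain ⟨e⟩ := h1
    exact ⟨e, e.injective⟩
  let A : Set κ.ord.ToType → Set κ.ord.ToType := fun X => (⋃ d ∈ Bd κ X, P (e d))ᶜ
  let Gen : Set (Set κ.ord.ToType) :=
    {S | S ∈ G ∨ (∃ X, S = A X) ∨ ∃ I : Set (Set κ.ord.ToType), κ ≤ #I ∧ S = (⋂ X ∈ I, A X)ᶜ}
  have h2 : (2 : Cardinal.{u}) < κ := (Cardinal.natCast_lt_aleph0 (n := 2)).trans_le hω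
  let F : Filter κ.ord.ToType := Filter.cardinalGenerate Gen h2
  have hmem : ∀ s, s ∈ F ↔ ∃ S : Set (Set κ.ord.ToType), S ⊆ Gen ∧ #S < κ ∧ ⋂₀ S ⊆ s :=
    fun s => Filter.mem_cardinalGenerate_iff (hreg := hκ)
  have hgen : ∀ S ∈ Gen, S ∈ F := by
    intro S hS
    rw [hmem]
    refine ⟨{S}, by simpa using hS, ?_, by simp⟩
    rw [Cardinal.mk_singleton]
    exact (Cardinal.one_lt_aleph0).trans_le hω
  have hne : F.NeBot := by
    rw [Filter.neBot_iff, ne_eq, ← Filter.empty_mem_iff_bot, hmem]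
    rintro ⟨S, hS1, hS2, hS3⟩
    let S0 : Set (Set κ.ord.ToType) := {T | T ∈ S ∧ T ∈ G}
    let S1 : Set (Set κ.ord.ToType) := {T | T ∈ S ∧ ∃ X, T = A X}
    let S2 : Set (Set κ.ord.ToType) :=
      {T | T ∈ S ∧ ∃ I : Set (Set κ.ord.ToType), κ ≤ #I ∧ T = (⋂ X ∈ I, A X)ᶜ}
    have hS0' : #S0 < κ := (Cardinal.mk_le_mk_of_subset fun T hT => hT.1).trans_lt hS2
    have hS1' : #S1 < κ := (Cardinal.mk_le_mk_of_subset fun T hT => hT.1).trans_lt hS2
    have hS2' : #S2 < κ := (Cardinal.mk_le_mk_of_subset fun T hT => hT.1).trans_lt hS2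
    choose Y hY using fun T : S1 => T.2.2
    choose I hI1 hI2 using fun T : S2 => T.2.2
    have hX : ∀ T : S2, ∃ X ∈ I T, ∀ T' : S1, X ≠ Y T' := by
      intro T
      by_contra hcon
      push Not at hcon
      choose f hf using fun X : I T => hcon X.1 X.2
      have hinj : Function.Injective f := fun a b hab => by
        apply Subtype.ext
        rw [hf a, hf b, hab]
      exact absurd ((hI1 T).trans (Cardinal.mk_le_of_injective hinj)) (not_le.2 hS1')
    choose X hX1 hX2 using hX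
    obtain ⟨d, hd1, hd2⟩ := independent hω hS2' hS1' X Y hX2
    obtain ⟨x, hx0, hxP⟩ : ∃ x ∈ ⋂₀ S0, x ∈ P (e d) := by
      by_contra hcon
      push Not at hcon
      exact hP1 (e d) (Filter.mem_of_superset (hG S0 hS0' fun T hT => hT.2) hcon)
    have hd : x ∈ ⋂₀ S := by
      intro T hT
      rcases hS1 hT with h3 | h3 | h3
      · exact hx0 T ⟨hT, h3⟩
      · have h4 := hY ⟨T, hT, h3⟩
        simp only at h4
        rw [h4]
        intro h5
        obtain ⟨d', hd', h6⟩ := mem_iUnion₂.1 h5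
        by_cases h7 : d' = d
        · subst h7
          exact hd2 _ hd'
        · exact Set.disjoint_left.1 (hP2 _ _ fun h8 => h7 (he h8)) h6 hxP
      · have h4 := hI2 ⟨T, hT, h3⟩
        simp only at h4
        rw [h4]
        intro h5
        have h6 := mem_iInter₂.1 h5 (X ⟨T, hT, h3⟩) (hX1 _)
        exact h6 (mem_iUnion₂.2 ⟨d, hd1 _, hxP⟩)
    exact hS3 hd
  have hA : ∀ X, A X ∈ F := fun X => hgen _ (Or.inr (Or.inl ⟨X, rfl⟩))
  have hI : ∀ I : Set (Set κ.ord.ToType), κ ≤ #I → (⋂ X ∈ I, A X)ᶜ ∈ F :=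
    fun I hI => hgen _ (Or.inr (Or.inr ⟨I, hI, rfl⟩))
  refine ⟨F, fun s hs => hgen _ (Or.inl hs), hne, ?_, ?_, A, hA, hI⟩
  · intro S hS hSF
    have : CardinalInterFilter F κ := Filter.cardinalInter_ofCardinalGenerate Gen h2
    exact (cardinal_sInter_mem hS).2 hSF
  · intro hG
    have h3 : #(Order.succ κ).ord.ToType ≤ #(Set κ.ord.ToType) := by
      rw [mk_K, Cardinal.mk_set, mk_K]
      exact Order.succ_le_of_lt (Cardinal.cantor κ)
    obtain ⟨j⟩ := h3
    obtain ⟨I, hI1, hI2⟩ := hG (fun i => A (j i)) fun i => hA _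
    have h4 : (⋂ X ∈ j '' I, A X)ᶜ ∈ F := hI _ (by
      rw [Cardinal.mk_image_eq j.injective, hI1])
    have h5 : ⋂ X ∈ j '' I, A X = ⋂ i ∈ I, A (j i) := biInter_image
    rw [h5] at h4
    have h6 := Filter.inter_mem h4 hI2
    rw [compl_inter_self] at h6
    exact hne.ne (Filter.empty_mem_iff_bot.1 h6)

theorem powerlt_of_GCH (hG : GCH.{u}) (hκ : κ.IsRegular) : κ ^< κ = κ := by
  have hω := hκ.aleph0_le
  refine le_antisymm ?_ ?_
  · rw [powerlt_le]
    intro c hc
    rcases lt_or_ge c ℵ₀ with h1 | h1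
    · obtain ⟨n, rfl⟩ := Cardinal.lt_aleph0.1 h1
      exact Cardinal.power_nat_le hω
    · -- functions are bounded
      have hb : ∀ f : c.ord.ToType → κ.ord.ToType, ∃ a, ∀ i, f i < a := by
        intro f
        by_contra hcon
        push Not at hcon
        have h2 : (univ : Set κ.ord.ToType) = ⋃ i, Iic (f i) := by
          refine (eq_univ_of_forall fun a => ?_).symm
          obtain ⟨i, hi⟩ := hcon a
          exact mem_iUnion.2 ⟨i, hi⟩
        have h3 : #(⋃ i, Iic (f i) : Set κ.ord.ToType) < κ := by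
          rw [Cardinal.card_iUnion_lt_iff_forall_of_isRegular hκ (by rw [Cardinal.mk_ord_toType]; exact hc)]
          intro i
          rw [← Iio_insert]
          refine Cardinal.mk_insert_le.trans_lt (Cardinal.add_lt_of_lt hω (mk_Iio_lt _) ?_)
          exact (Cardinal.one_lt_aleph0).trans_le hω
        rw [← h2, Cardinal.mk_univ, mk_K] at h3
        exact lt_irrefl _ h3
      choose b hb using hb
      have h4 : #(c.ord.ToType → κ.ord.ToType) ≤ #(Σ a : κ.ord.ToType, (c.ord.ToType → Iio a)) := by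
        refine Cardinal.mk_le_of_injective (f := fun f => ⟨b f, fun i => ⟨f i, hb f i⟩⟩) ?_
        intro f g hfg
        have h5 : b f = b g := congrArg Sigma.fst hfg
        funext i
        have h6 := congrArg (fun s : Σ a : κ.ord.ToType, (c.ord.ToType → Iio a) =>
          (s.2 i).1) hfg
        exact h6
      rw [← Cardinal.power_def, mk_K, Cardinal.mk_ord_toType] at h4
      refine h4.trans ?_
      rw [Cardinal.mk_sigma]
      refine (Cardinal.sum_le_sum _ (fun _ => κ) fun a => ?_).trans ?_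
      · rw [← Cardinal.power_def, Cardinal.mk_ord_toType]
        have h5 : max #(Iio a) c < κ := max_lt (mk_Iio_lt a) hc
        calc #(Iio a) ^ c ≤ (2 ^ #(Iio a)) ^ (max #(Iio a) c) :=
              (Cardinal.power_le_power_right (Cardinal.cantor _).le).trans
                (Cardinal.power_le_power_left (by
                  exact (Cardinal.power_pos _ (by norm_num)).ne') (le_max_right _ _))
          _ = 2 ^ (#(Iio a) * max #(Iio a) c) := (Cardinal.power_mul).symm
          _ ≤ 2 ^ (max #(Iio a) c * max #(Iio a) c) :=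
              Cardinal.power_le_power_left (by norm_num) (mul_le_mul' (le_max_left _ _) le_rfl)
          _ = 2 ^ (max #(Iio a) c) := by
              rw [Cardinal.mul_eq_self (h1.trans (le_max_right _ _))]
          _ = Order.succ (max #(Iio a) c) := hG _ (h1.trans (le_max_right _ _))
          _ ≤ κ := Order.succ_le_of_lt h5
      · rw [Cardinal.sum_const', mk_K]
        exact (Cardinal.mul_eq_self hω).le
  · have := le_powerlt κ ((Cardinal.one_lt_aleph0).trans_le hω)
    rwa [Cardinal.power_one] at this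

end

/-- Under GCH, every regular cardinal `κ` carries a proper `κ`-complete filter without the Galvin
property, which moreover has `2 ^ κ` members any `κ` of which have a null intersection. Such a filter
can be found above every `κ`-complete filter `G` with `κ` disjoint positive sets. Instead of GCH it
is enough to assume `κ^{<κ} = κ`. -/
theorem result (κ : Cardinal.{u}) (hκ : κ.IsRegular) (h : GCH.{u} ∨ κ ^< κ = κ) :
    StrongFailure κ ⊤ ∧
    ∀ G : Filter κ.ord.ToType, Complete κ G → ManyPositive κ G → StrongFailure κ G := by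
  have h' : κ ^< κ = κ := by
    rcases h with h | h
    · exact powerlt_of_GCH h hκ
    · exact h
  refine ⟨strongFailure hκ h' _ ?_ ⟨fun a => {a}, ?_, ?_⟩, strongFailure hκ h'⟩
  · intro S _ hS
    rw [Filter.mem_top, sInter_eq_univ]
    exact fun s hs => Filter.mem_top.1 (hS s hs)
  · intro a ha
    rw [Filter.mem_top] at ha
    have : a ∈ ({a} : Set κ.ord.ToType)ᶜ := by rw [ha]; exact mem_univ a
    exact this rfl
  · intro a b hab
    rw [Set.disjoint_singleton]
    exact hab

end Pool.Agent.Results.MP_45cf3b_lc.NullIntersections
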